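import Pool.Agent.H964.LF.Stm

set_option autoImplicit false

/-! Decimation: integrate out the even coordinates. -/

namespace Pool.Agent.H52.LF

open MeasureTheory Pool.Agent.H964.LF
open scoped ENNReal

theorem par_cases {d n : ℕ} (v : Tor d n) : par v = 0 ∨ par v = 1 := by
  generalize par v = c
  fin_cases c
  · exact Or.inl rfl
  · exact Or.inr rfl

theorem univ_eq (d n : ℕ) : (Finset.univ : Finset (Tor d n)) = od d n ∪ ev d n := by
  ext v
  simp only [Finset.mem_univ, Finset.mem_union, od, ev, Finset.mem_filter, true_and, true_iff]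
  exact (par_cases v).symm

theorem disj (d n : ℕ) : Disjoint (od d n) (ev d n) := by
  rw [Finset.disjoint_left]
  intro v h1 h2
  simp only [od, ev, Finset.mem_filter, Finset.mem_univ, true_and] at h1 h2
  rw [h1] at h2
  exact absurd h2 (by decide)

/-- the Lipschitz condition, in terms of the even vertices -/
theorem lip_iff {d n : ℕ} (hpar : ∀ (v : Tor d n) (a : Fin d × Bool), par (nb v a) = par v + 1)
    (ψ : Tor d n → ℝ) : Lip ψ ↔ ∀ v ∈ ev d n, ∀ a : Fin d × Bool, |ψ (nb v a) - ψ v| ≤ 1 := by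
  constructor
  · rintro h v - ⟨i, b⟩
    cases b with
    | true => exact h v i
    | false =>
      have h1 := h (v - Pi.single i 1) i
      rw [sub_add_cancel, abs_sub_comm] at h1
      exact h1
  · intro h x i
    rcases par_cases x with h0 | h1
    · exact h x (by simp [ev, h0]) (i, true)
    · have h2 : par (x + Pi.single i 1 : Tor d n) = 0 := by
        have h3 := hpar x (i, true)
        rw [h1] at h3
        have h4 : nb x (i, true) = x + Pi.single i 1 := rfl
        rw [h4] at h3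
        rw [h3]
        decide
      have h5 := h (x + Pi.single i 1) (by simp [ev, h2]) (i, false)
      have h6 : nb (x + Pi.single i 1 : Tor d n) (i, false) = x := by
        show (x + Pi.single i 1 : Tor d n) - Pi.single i 1 = x
        rw [add_sub_cancel_right]
      rw [h6, abs_sub_comm] at h5
      exact h5

theorem lip_meas (d n : ℕ) : MeasurableSet {ψ : Tor d n → ℝ | Lip ψ} := by
  have h : {ψ : Tor d n → ℝ | Lip ψ} =
      ⋂ x : Tor d n, ⋂ i : Fin d, {ψ : Tor d n → ℝ | |ψ (x + Pi.single i 1) - ψ x| ≤ 1} := by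
    ext ψ
    simp only [Set.mem_iInter, Set.mem_ofPred_eq, Lip]
  rw [h]
  refine MeasurableSet.iInter fun x => MeasurableSet.iInter fun i => ?_
  exact (isClosed_le (by fun_prop) continuous_const).measurableSet

/-- the interval of allowed values -/
def IV {d n : ℕ} (x : Tor d n → ℝ) (v : Tor d n) : Set ℝ :=
  Set.Icc ((⨆ a, x (nb v a)) - 1) ((⨅ a, x (nb v a)) + 1)

theorem mem_IV {d n : ℕ} (hd : 1 ≤ d) (x : Tor d n → ℝ) (v : Tor d n) (t : ℝ) :
    t ∈ IV x v ↔ ∀ a : Fin d × Bool, |x (nb v a) - t| ≤ 1 := by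
  have : Nonempty (Fin d × Bool) := ⟨(⟨0, hd⟩, true)⟩
  have hb : BddAbove (Set.range fun a : Fin d × Bool => x (nb v a)) :=
    (Set.finite_range _).bddAbove
  have hb2 : BddBelow (Set.range fun a : Fin d × Bool => x (nb v a)) :=
    (Set.finite_range _).bddBelow
  unfold IV
  have e1 : (⨆ a, x (nb v a)) - 1 ≤ t ↔ ∀ a, x (nb v a) ≤ t + 1 := by
    rw [sub_le_iff_le_add, ciSup_le_iff hb]
  have e2 : t ≤ (⨅ a, x (nb v a)) + 1 ↔ ∀ a, t - 1 ≤ x (nb v a) := by
    rw [← sub_le_iff_le_add, le_ciInf_iff hb2]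
  rw [Set.mem_Icc, e1, e2]
  constructor
  · rintro ⟨h1, h2⟩ a
    rw [abs_le]
    exact ⟨by linarith [h2 a], by linarith [h1 a]⟩
  · intro h
    exact ⟨fun a => by linarith [(abs_le.1 (h a)).2], fun a => by linarith [(abs_le.1 (h a)).1]⟩

theorem vol_IV {d n : ℕ} (x : Tor d n → ℝ) (v : Tor d n) :
    volume (IV x v) = ENNReal.ofReal (Len x v) := by
  unfold IV Len
  rw [Real.volume_Icc]
  have h : (⨅ a, x (nb v a)) + 1 - ((⨆ a, x (nb v a)) - 1) =
      2 - (⨆ a, x (nb v a)) + ⨅ a, x (nb v a) := by ring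
  rw [h]
  rcases le_total 0 (2 - (⨆ a, x (nb v a)) + ⨅ a, x (nb v a)) with h1 | h1
  · rw [max_eq_right h1]
  · rw [max_eq_left h1, ENNReal.ofReal_of_nonpos h1, ENNReal.ofReal_zero]

theorem upd_odd {d n : ℕ} (x : Tor d n → ℝ) (y : (∀ _ : (ev d n : Finset (Tor d n)), ℝ))
    (v : Tor d n) (hv : par v = 1) : Function.updateFinset x (ev d n) y v = x v := by
  rw [Function.updateFinset, dif_neg]
  simp only [ev, Finset.mem_filter, Finset.mem_univ, true_and, hv]
  decide

theorem upd_even {d n : ℕ} (x : Tor d n → ℝ) (y : (∀ _ : (ev d n : Finset (Tor d n)), ℝ))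
    (v : Tor d n) (hv : v ∈ ev d n) : Function.updateFinset x (ev d n) y v = y ⟨v, hv⟩ := by
  rw [Function.updateFinset, dif_pos hv]

/-- the inner marginal -/
theorem inner {d n : ℕ} (hd : 1 ≤ d)
    (hpar : ∀ (v : Tor d n) (a : Fin d × Bool), par (nb v a) = par v + 1)
    (p : Tor d n) (hp : par p = 1) (E : Set (Tor d n → ℝ)) (hE : dodd E) (x : Tor d n → ℝ) :
    mg (ev d n) ({ψ : Tor d n → ℝ | Lip ψ ∧ |ψ p| ≤ 1 / 2 ∧ ψ ∈ E}.indicator 1) x =
      E.indicator (FF p) x := by
  show (∫⁻ y : (∀ _ : (ev d n : Finset (Tor d n)), ℝ),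
    ({ψ : Tor d n → ℝ | Lip ψ ∧ |ψ p| ≤ 1 / 2 ∧ ψ ∈ E}.indicator 1)
      (Function.updateFinset x (ev d n) y)
      ∂Measure.pi fun _ : (ev d n : Finset (Tor d n)) => (volume : Measure ℝ)) = _
  have hE2 : ∀ y, Function.updateFinset x (ev d n) y ∈ E ↔ x ∈ E := fun y =>
    hE _ _ fun v hv => upd_odd x y v hv
  by_cases hx : x ∈ E ∧ |x p| ≤ 1 / 2
  · have h1 : ∀ y : (∀ _ : (ev d n : Finset (Tor d n)), ℝ),
        ({ψ : Tor d n → ℝ | Lip ψ ∧ |ψ p| ≤ 1 / 2 ∧ ψ ∈ E}.indicator (1 : (Tor d n → ℝ) → ℝ≥0∞))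
          (Function.updateFinset x (ev d n) y) =
        (Set.pi Set.univ fun v : (ev d n : Finset (Tor d n)) => IV x v.1).indicator 1 y := by
      intro y
      have h2 : Function.updateFinset x (ev d n) y ∈
          {ψ : Tor d n → ℝ | Lip ψ ∧ |ψ p| ≤ 1 / 2 ∧ ψ ∈ E} ↔
          y ∈ (Set.pi Set.univ fun v : (ev d n : Finset (Tor d n)) => IV x v.1) := by
        rw [Set.mem_ofPred_eq, Set.mem_univ_pi, hE2 y, upd_odd x y p hp, lip_iff hpar]
        constructor
        · rintro ⟨h3, -, -⟩ v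
          rw [mem_IV hd]
          intro a
          have h4 := h3 v.1 v.2 a
          rw [upd_even x y v.1 v.2, upd_odd x y (nb v.1 a)] at h4
          · exact h4
          · rw [hpar]
            have h5 : par v.1 = 0 := (Finset.mem_filter.1 v.2).2
            rw [h5, zero_add]
        · intro h3
          refine ⟨fun v hv a => ?_, hx.2, hx.1⟩
          have h4 := (mem_IV hd x v _).1 (h3 ⟨v, hv⟩) a
          rw [upd_even x y v hv, upd_odd x y (nb v a)]
          · exact h4
          · rw [hpar]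
            have h5 : par v = 0 := (Finset.mem_filter.1 hv).2
            rw [h5, zero_add]
      by_cases h3 : y ∈ (Set.pi Set.univ fun v : (ev d n : Finset (Tor d n)) => IV x v.1)
      · rw [Set.indicator_of_mem h3, Set.indicator_of_mem (h2.2 h3)]
        rfl
      · rw [Set.indicator_of_notMem h3, Set.indicator_of_notMem fun h4 => h3 (h2.1 h4)]
    rw [lintegral_congr h1, lintegral_indicator_one, Measure.pi_pi, Set.indicator_of_mem hx.1]
    · unfold FF
      rw [if_pos hx.2, mul_one,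
        ← Finset.prod_coe_sort (ev d n) (fun v => ENNReal.ofReal (Len x v))]
      exact Finset.prod_congr rfl fun (v : (ev d n : Finset (Tor d n))) _ => vol_IV x v.1
    · exact MeasurableSet.univ_pi fun v => measurableSet_Icc
  · have h1 : ∀ y : (∀ _ : (ev d n : Finset (Tor d n)), ℝ),
        ({ψ : Tor d n → ℝ | Lip ψ ∧ |ψ p| ≤ 1 / 2 ∧ ψ ∈ E}.indicator (1 : (Tor d n → ℝ) → ℝ≥0∞))
          (Function.updateFinset x (ev d n) y) = 0 := by
      intro y
      rw [Set.indicator_of_notMem]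
      rintro ⟨-, h3, h4⟩
      rw [upd_odd x y p hp] at h3
      exact hx ⟨(hE2 y).1 h4, h3⟩
    rw [lintegral_congr h1, lintegral_zero]
    by_cases hxE : x ∈ E
    · rw [Set.indicator_of_mem hxE]
      unfold FF
      rw [if_neg fun h => hx ⟨hxE, h⟩, mul_zero]
    · rw [Set.indicator_of_notMem hxE]

theorem t_DEC : S_BAS → S_DEC := by
  intro hB d n p E x0 hd hp hEm hE
  obtain ⟨hpar, -⟩ := hB d n hd
  have hA : MeasurableSet {ψ : Tor d n → ℝ | Lip ψ ∧ |ψ p| ≤ 1 / 2 ∧ ψ ∈ E} := by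
    have h1 : {ψ : Tor d n → ℝ | Lip ψ ∧ |ψ p| ≤ 1 / 2 ∧ ψ ∈ E} =
        {ψ : Tor d n → ℝ | Lip ψ} ∩ ({ψ : Tor d n → ℝ | |ψ p| ≤ 1 / 2} ∩ E) := by
      ext ψ
      rfl
    rw [h1]
    refine (lip_meas d n).inter (MeasurableSet.inter ?_ hEm)
    exact (isClosed_le (by fun_prop) continuous_const).measurableSet
  unfold vl
  rw [← lintegral_indicator_one hA, volume_pi, lintegral_eq_lmarginal_univ x0, univ_eq,
    lmarginal_union _ _ (measurable_one.indicator hA) (disj d n)]
  have h2 : lmarginal (fun _ : Tor d n => (volume : Measure ℝ)) (ev d n)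
      ({ψ : Tor d n → ℝ | Lip ψ ∧ |ψ p| ≤ 1 / 2 ∧ ψ ∈ E}.indicator 1) = E.indicator (FF p) := by
    funext x
    exact inner hd hpar p hp E hE x
  rw [h2]

end Pool.Agent.H52.LF
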